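import Mathlib

/-!
# MP_633bfc_co: the bipartition polynomial of the complement determines that of the graph (Q1 true)

`B(G) = ∑ x^|W| y^|U| (1-y)^(n-|W|-|U|) (1+z)^e(W,U)` over disjoint pairs `(W, U)`, and
`e(W,U)` in the complement is `|W||U| - e(W,U)`.
-/

namespace Pool.Agent.Results.MP_633bfc_co.Complement

open Finset SimpleGraph MvPolynomial

section
variable {V : Type} [Fintype V] [DecidableEq V]

open Classical in
/-- The edges of `G` with exactly one endpoint in `W`. -/
noncomputable def bdry (G : SimpleGraph V) (W : Finset V) : Finset (Sym2 V) :=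
  univ.filter fun e => e ∈ G.edgeSet ∧ ∃ u ∈ W, ∃ v ∉ W, e = s(u, v)

/-- The vertices outside `W` joined to a vertex of `W` by an edge of `F`. -/
def nbr (W : Finset V) (F : Finset (Sym2 V)) : Finset V :=
  univ.filter fun v => v ∉ W ∧ ∃ u ∈ W, s(u, v) ∈ F

/-- The bipartition polynomial `B(G; x, y, z)` with `x = X 0`, `y = X 1`, `z = X 2`. -/
noncomputable def B (G : SimpleGraph V) : MvPolynomial (Fin 3) ℤ :=
  ∑ W : Finset V, X 0 ^ W.card * ∑ F ∈ (bdry G W).powerset, X 1 ^ (nbr W F).card * X 2 ^ F.card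

open Classical in
noncomputable def ee (G : SimpleGraph V) (W U : Finset V) : ℕ :=
  ((W ×ˢ U).filter fun p => G.Adj p.1 p.2).card

theorem ee_compl (G : SimpleGraph V) (W U : Finset V) (h : U ⊆ Wᶜ) :
    ee G W U = W.card * U.card - ee Gᶜ W U := by
  classical
  have h1 := card_filter_add_card_filter_not (s := W ×ˢ U) (fun p : V × V => G.Adj p.1 p.2)
  have h2 : ee Gᶜ W U = ((W ×ˢ U).filter fun p : V × V => ¬ G.Adj p.1 p.2).card := by
    unfold ee
    refine congrArg Finset.card (filter_congr_decidable _ _ _ |>.trans (filter_congr ?_))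
    rintro ⟨a, b⟩ hp
    obtain ⟨ha, hb⟩ := mem_product.1 hp
    have : a ≠ b := fun e => (mem_compl.1 (h hb)) (e ▸ ha)
    simp [this]
  have h3 : ee G W U = ((W ×ˢ U).filter fun p : V × V => G.Adj p.1 p.2).card := by
    unfold ee
    exact congrArg Finset.card (filter_congr_decidable _ _ _)
  rw [card_product] at h1
  omega

theorem inner {K : Type} [CommRing K] (G : SimpleGraph V) (W : Finset V) (y z : K) :
    ∑ F ∈ (bdry G W).powerset, y ^ (nbr W F).card * z ^ F.card =
      ∑ U ∈ Wᶜ.powerset, y ^ U.card * (1 - y) ^ (Fintype.card V - W.card - U.card) *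
        (1 + z) ^ ee G W U := by
  classical
  set A : Finset V → Finset (Sym2 V) := fun U =>
    ((W ×ˢ U).filter fun p : V × V => G.Adj p.1 p.2).image fun p => s(p.1, p.2) with hA
  have h1 : ∀ F, y ^ (nbr W F).card = ∑ U ∈ Wᶜ.powerset, if nbr W F ⊆ U then
      y ^ U.card * (1 - y) ^ (Fintype.card V - W.card - U.card) else 0 := by
    intro F
    have hsub : nbr W F ⊆ Wᶜ := fun v hv => mem_compl.2 (mem_filter.1 hv).2.1
    have e1 : y ^ (nbr W F).card = ∏ v ∈ Wᶜ, (y + if v ∈ nbr W F then 0 else 1 - y) := by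
      rw [← prod_const, ← inter_eq_right.2 hsub, ← prod_ite_mem, inter_eq_right.2 hsub]
      refine prod_congr rfl fun v _ => ?_
      split_ifs <;> ring
    rw [e1, prod_add]
    refine sum_congr rfl fun U hU => ?_
    have hU' := mem_powerset.1 hU
    split_ifs with h
    · rw [prod_const, prod_congr rfl (g := fun _ => 1 - y) fun v hv =>
        if_neg fun hn => (mem_sdiff.1 hv).2 (h hn), prod_const, card_sdiff_of_subset hU',
        card_compl]
    · obtain ⟨v, hv, hv'⟩ := not_subset.1 h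
      rw [prod_eq_zero (f := fun v => if v ∈ nbr W F then (0 : K) else 1 - y)
        (mem_sdiff.2 ⟨hsub hv, hv'⟩) (if_pos hv), mul_zero]
  simp only [h1, sum_mul]
  rw [sum_comm]
  refine sum_congr rfl fun U hU => ?_
  have hU' := mem_powerset.1 hU
  have h2 : ee G W U = (A U).card := by
    rw [hA, card_image_of_injOn]
    · unfold ee
      exact congrArg Finset.card (filter_congr_decidable _ _ _)
    · rintro ⟨a, b⟩ hp ⟨c, d⟩ hq h
      have hp' := mem_product.1 (mem_filter.1 hp).1
      have hq' := mem_product.1 (mem_filter.1 hq).1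
      rcases Sym2.eq_iff.1 h with h | h
      · exact Prod.ext h.1 h.2
      · exact absurd (h.1 ▸ hp'.1) (mem_compl.1 (hU' hq'.2))
  have h3 : (bdry G W).powerset.filter (fun F => nbr W F ⊆ U) = (A U).powerset := by
    ext F
    simp only [mem_filter, mem_powerset]
    constructor
    · rintro ⟨hF, hn⟩ e he
      obtain ⟨-, he', u, hu, v, hv, rfl⟩ := mem_filter.1 (hF he)
      exact mem_image.2 ⟨(u, v), mem_filter.2 ⟨mem_product.2
        ⟨hu, hn (mem_filter.2 ⟨mem_univ _, hv, u, hu, he⟩)⟩, he'⟩, rfl⟩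
    · intro hF
      refine ⟨fun e he => ?_, fun v hv => ?_⟩
      · obtain ⟨⟨a, b⟩, hp, rfl⟩ := mem_image.1 (hF he)
        have hp' := mem_product.1 (mem_filter.1 hp).1
        exact mem_filter.2 ⟨mem_univ _, (mem_filter.1 hp).2, a, hp'.1, b,
          mem_compl.1 (hU' hp'.2), rfl⟩
      · obtain ⟨-, hv', u, hu, he⟩ := mem_filter.1 hv
        obtain ⟨⟨a, b⟩, hp, h⟩ := mem_image.1 (hF he)
        have hp' := mem_product.1 (mem_filter.1 hp).1
        rcases Sym2.eq_iff.1 h with h | h
        · exact h.2 ▸ hp'.2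
        · exact absurd (h.1 ▸ hp'.1) hv'
  simp only [ite_mul, zero_mul]
  have h4 : (1 + z) ^ (A U).card = ∑ F ∈ (A U).powerset, z ^ F.card := by
    rw [← prod_const, prod_one_add]
    simp
  rw [← sum_filter, h3, ← mul_sum, h2, h4]

theorem aeval_B {K : Type} [CommRing K] (G : SimpleGraph V) (x y z : K) :
    aeval ![x, y, z] (B G) = ∑ W : Finset V, ∑ U ∈ Wᶜ.powerset,
      x ^ W.card * (y ^ U.card * (1 - y) ^ (Fintype.card V - W.card - U.card) *
        (1 + z) ^ ee G W U) := by
  simp only [B, map_sum, map_mul, map_pow, aeval_X, Matrix.cons_val_zero, Matrix.cons_val_one,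
    Matrix.cons_val]
  simp only [inner, mul_sum]

noncomputable def mono (a b c : ℕ) : Fin 3 →₀ ℕ :=
  Finsupp.single 0 a + Finsupp.single 1 b + Finsupp.single 2 c

noncomputable def R (G : SimpleGraph V) : MvPolynomial (Fin 3) ℤ :=
  ∑ W : Finset V, ∑ U ∈ Wᶜ.powerset, monomial (mono W.card U.card (ee G W U)) 1

noncomputable def Phi (n : ℕ) : MvPolynomial (Fin 3) ℤ →ₗ[ℤ] MvPolynomial (Fin 3) ℤ :=
  (basisMonomials (Fin 3) ℤ).constr ℤ fun m =>
    X 0 ^ m 0 * (X 1 ^ m 1 * (1 - X 1) ^ (n - m 0 - m 1) * (1 + X 2) ^ (m 0 * m 1 - m 2))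

theorem B_eq (G : SimpleGraph V) : B G = Phi (Fintype.card V) (R Gᶜ) := by
  have h : B G = aeval ![(X 0 : MvPolynomial (Fin 3) ℤ), X 1, X 2] (B G) := by
    have : (![X 0, X 1, X 2] : Fin 3 → MvPolynomial (Fin 3) ℤ) = X := by
      funext i; fin_cases i <;> rfl
    rw [this, aeval_X_left_apply]
  refine h.trans ((aeval_B G _ _ _).trans ?_)
  rw [R, map_sum]
  refine sum_congr rfl fun W _ => ?_
  rw [map_sum]
  refine sum_congr rfl fun U hU => ?_
  have := (basisMonomials (Fin 3) ℤ).constr_basis ℤ (fun m : Fin 3 →₀ ℕ =>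
    (X 0 ^ m 0 * (X 1 ^ m 1 * (1 - X 1) ^ (Fintype.card V - m 0 - m 1) *
      (1 + X 2) ^ (m 0 * m 1 - m 2)) : MvPolynomial (Fin 3) ℤ)) (mono W.card U.card (ee Gᶜ W U))
  rw [coe_basisMonomials] at this
  rw [Phi, this, ee_compl G W U (mem_powerset.1 hU)]
  simp [mono]

theorem card_B (G : SimpleGraph V) : aeval ![(1 : ℤ), 0, 0] (B G) = 2 ^ Fintype.card V := by
  rw [aeval_B, sum_congr rfl (g := fun _ => 1) fun W _ => ?_]
  · simp
  · rw [sum_eq_single ∅]
    · simp
    · intro U _ hU
      simp [card_ne_zero.2 (nonempty_iff_ne_empty.2 hU)]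
    · simp

theorem eval_R (G : SimpleGraph V) (p : Fin 3 → ℤ) (hp : (1 + p 1 : ℚ) ≠ 0) :
    ((eval p (R G) : ℤ) : ℚ) = (1 + p 1) ^ Fintype.card V *
      aeval ![(p 0 / (1 + p 1) : ℚ), p 1 / (1 + p 1), p 2 - 1] (B G) := by
  rw [aeval_B, R, map_sum, Int.cast_sum, mul_sum]
  refine sum_congr rfl fun W _ => ?_
  rw [map_sum, Int.cast_sum, mul_sum]
  refine sum_congr rfl fun U hU => ?_
  have hc : U.card + W.card ≤ Fintype.card V := by
    have := card_le_card (mem_powerset.1 hU)
    rw [card_compl] at this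
    have := card_le_univ W
    omega
  obtain ⟨k, hk⟩ := Nat.exists_eq_add_of_le hc
  have e : Fintype.card V - W.card - U.card = k := by omega
  have e2 : (1 - p 1 / (1 + p 1) : ℚ) = 1 / (1 + p 1) := by field_simp; ring
  rw [e, hk, e2, eval_monomial, Finsupp.prod_fintype _ _ (by simp), Fin.prod_univ_three]
  have m0 : mono W.card U.card (ee G W U) 0 = W.card := by simp [mono]
  have m1 : mono W.card U.card (ee G W U) 1 = U.card := by simp [mono]
  have m2 : mono W.card U.card (ee G W U) 2 = ee G W U := by simp [mono]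
  rw [m0, m1, m2, div_pow, div_pow, div_pow, pow_add, pow_add, add_sub_cancel]
  rw [one_mul, Int.cast_mul, Int.cast_mul, Int.cast_pow, Int.cast_pow, Int.cast_pow, one_pow]
  have key : ∀ (a b c d : ℚ) (w u k e : ℕ), d ≠ 0 → a ^ w * b ^ u * c ^ e =
      d ^ u * d ^ w * d ^ k * (a ^ w / d ^ w * (b ^ u / d ^ u * (1 / d ^ k) * c ^ e)) := by
    intro a b c d w u k e hd
    field_simp
  exact key _ _ _ _ _ _ _ _ hp

end

/-- If the complements of two finite graphs have the same bipartition polynomial, so do the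
graphs. -/
theorem result (V W : Type) [Fintype V] [DecidableEq V] [Fintype W] [DecidableEq W]
    (G : SimpleGraph V) (H : SimpleGraph W) (h : B Gᶜ = B Hᶜ) : B G = B H := by
  have hn : Fintype.card V = Fintype.card W := by
    have := card_B Gᶜ
    rw [h, card_B] at this
    exact (Nat.pow_right_injective le_rfl (by exact_mod_cast this)).symm
  have hR : (1 + X 1) * (R Gᶜ - R Hᶜ) = 0 := by
    refine MvPolynomial.funext fun p => ?_
    simp only [map_mul, map_add, map_one, eval_X, map_sub, map_zero]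
    by_cases hp : 1 + p 1 = 0
    · rw [hp, zero_mul]
    · have hp' : (1 + p 1 : ℚ) ≠ 0 := by exact_mod_cast hp
      have e := eval_R Gᶜ p hp'
      rw [h, hn, ← eval_R Hᶜ p hp'] at e
      rw [Int.cast_injective e, sub_self, mul_zero]
  have hne : (1 + X 1 : MvPolynomial (Fin 3) ℤ) ≠ 0 := by
    intro h0
    have := congrArg (eval fun _ => (0 : ℤ)) h0
    simp at this
  rw [B_eq, B_eq H, hn, sub_eq_zero.1 ((mul_eq_zero.1 hR).resolve_left hne)]

end Pool.Agent.Results.MP_633bfc_co.Complement
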