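import Mathlib

namespace Pool.Agent.Results.MP_633bfc_co.Proof

open Finset MvPolynomial

variable {V : Type} [Fintype V] [DecidableEq V]

open Classical in
/-- The edges with exactly one end in `W`, each written as (end in `W`, end outside `W`). -/
noncomputable def bdry (G : SimpleGraph V) (W : Finset V) : Finset (V × V) :=
  univ.filter (fun e => e.1 ∈ W ∧ e.2 ∉ W ∧ G.Adj e.1 e.2)

/-- The bipartition polynomial, with `x = X 0`, `y = X 1`, `z = X 2`. -/
noncomputable def B (G : SimpleGraph V) : MvPolynomial (Fin 3) ℤ :=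
  ∑ W : Finset V, X 0 ^ W.card *
    ∑ F ∈ (bdry G W).powerset, X 1 ^ (F.image Prod.snd).card * X 2 ^ F.card

noncomputable def ec (G : SimpleGraph V) (W S : Finset V) : ℕ :=
  ((bdry G W).filter (fun e => e.2 ∈ S)).card

omit [Fintype V] in
lemma expand (D : Finset (V × V)) (T : Finset V) (hD : ∀ e ∈ D, e.2 ∈ T) (y z : ℝ) :
    ∑ F ∈ D.powerset, y ^ (F.image Prod.snd).card * z ^ F.card =
      ∑ S ∈ T.powerset, y ^ S.card * (1 - y) ^ (T.card - S.card) *
        (1 + z) ^ (D.filter (fun e => e.2 ∈ S)).card := by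
  have h1 : ∀ F ∈ D.powerset, y ^ (F.image Prod.snd).card =
      ∑ S ∈ T.powerset, y ^ S.card * (1 - y) ^ (T.card - S.card) *
        (if F ⊆ D.filter (fun e => e.2 ∈ S) then 1 else 0) := by
    intro F hF
    have hF' := mem_powerset.1 hF
    have hI : F.image Prod.snd ⊆ T := by
      intro v hv
      obtain ⟨e, he, rfl⟩ := mem_image.1 hv
      exact hD e (hF' he)
    have : y ^ (F.image Prod.snd).card =
        ∏ v ∈ T, (y + if v ∈ F.image Prod.snd then 0 else (1 - y)) := by
      rw [← prod_const, ← inter_eq_right.2 hI, ← prod_ite_mem, inter_eq_right.2 hI]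
      refine prod_congr rfl fun v _ => ?_
      split_ifs <;> ring
    rw [this, prod_add]
    refine sum_congr rfl fun S hS => ?_
    rw [prod_const, mul_assoc]
    congr 1
    split_ifs with h
    · rw [mul_one, ← card_sdiff_of_subset (mem_powerset.1 hS), ← prod_const]
      refine prod_congr rfl fun v hv => if_neg fun hv' => ?_
      obtain ⟨e, he, rfl⟩ := mem_image.1 hv'
      exact (mem_sdiff.1 hv).2 (mem_filter.1 (h he)).2
    · rw [mul_zero]
      obtain ⟨e, he, he'⟩ := not_subset.1 h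
      refine prod_eq_zero (i := e.2) (mem_sdiff.2 ⟨hD e (hF' he), fun hs =>
        he' (mem_filter.2 ⟨hF' he, hs⟩)⟩) (if_pos (mem_image_of_mem _ he))
  rw [sum_congr rfl fun F hF => by rw [h1 F hF, sum_mul], sum_comm]
  refine sum_congr rfl fun S _ => ?_
  simp only [mul_assoc, ← mul_sum]
  congr 2
  have := Finset.sum_pow_mul_eq_add_pow z 1 (D.filter (fun e => e.2 ∈ S))
  simp only [one_pow, mul_one] at this
  rw [add_comm, ← this]
  simp only [ite_mul, one_mul, zero_mul]
  rw [← sum_filter]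
  refine sum_congr ?_ fun _ _ => rfl
  ext F
  simp only [mem_filter, mem_powerset]
  exact ⟨fun h => h.2, fun h => ⟨h.trans (filter_subset _ _), h⟩⟩

lemma evalB (G : SimpleGraph V) (x y z : ℝ) : aeval ![x, y, z] (B G) =
    ∑ W : Finset V, x ^ W.card * ∑ S ∈ Wᶜ.powerset,
      y ^ S.card * (1 - y) ^ (Wᶜ.card - S.card) * (1 + z) ^ ec G W S := by
  simp only [B, map_sum, map_mul, map_pow, aeval_X]
  refine sum_congr rfl fun W _ => ?_
  congr 1
  exact expand (bdry G W) Wᶜ (fun e he => by
    simp only [bdry, mem_filter] at he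
    exact mem_compl.2 he.2.2.1) y z

lemma ec_compl (G : SimpleGraph V) (W S : Finset V) (h : S ⊆ Wᶜ) :
    ec G W S + ec Gᶜ W S = W.card * S.card := by
  classical
  rw [← card_product, ← card_filter_add_card_filter_not (s := W ×ˢ S) (fun e => G.Adj e.1 e.2)]
  congr 1
  · unfold ec bdry
    congr 1
    ext e
    simp only [mem_filter, mem_univ, true_and, mem_product]
    exact ⟨fun a => ⟨⟨a.1.1, a.2⟩, a.1.2.2⟩,
      fun a => ⟨⟨a.1.1, mem_compl.1 (h a.1.2), a.2⟩, a.1.2⟩⟩
  · unfold ec bdry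
    congr 1
    ext e
    simp only [mem_filter, mem_univ, true_and, mem_product, SimpleGraph.compl_adj]
    exact ⟨fun a => ⟨⟨a.1.1, a.2⟩, a.1.2.2.2⟩,
      fun a => ⟨⟨a.1.1, mem_compl.1 (h a.1.2),
        fun e' => mem_compl.1 (h a.1.2) (e' ▸ a.1.1), a.2⟩, a.1.2⟩⟩

noncomputable def cW (G : SimpleGraph V) (W : Finset V) (u t : ℝ) : ℝ :=
  ∑ S ∈ Wᶜ.powerset, u ^ S.card * t ^ ec G W S

noncomputable def p (G : SimpleGraph V) (k : ℕ) (u t : ℝ) : ℝ :=
  ∑ W : Finset V, if W.card = k then cW G W u t else 0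

lemma cW_compl (G : SimpleGraph V) (W : Finset V) (u t : ℝ) (ht : t ≠ 0) :
    cW G W u t = cW Gᶜ W (u * t ^ W.card) t⁻¹ := by
  refine sum_congr rfl fun S hS => ?_
  rw [mul_pow, ← pow_mul, ← ec_compl G W S (mem_powerset.1 hS), pow_add, inv_pow]
  field_simp

lemma p_compl (G : SimpleGraph V) (k : ℕ) (u t : ℝ) (ht : t ≠ 0) :
    p G k u t = p Gᶜ k (u * t ^ k) t⁻¹ := by
  refine sum_congr rfl fun W _ => ?_
  split_ifs with h
  · rw [cW_compl G W u t ht, h]
  · rfl

lemma evalB2 (G : SimpleGraph V) (x u t : ℝ) (hu : 0 < u) :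
    aeval ![x / (1 + u), u / (1 + u), t - 1] (B G) =
      (∑ W : Finset V, x ^ W.card * cW G W u t) / (1 + u) ^ Fintype.card V := by
  rw [evalB, sum_div]
  refine sum_congr rfl fun W _ => ?_
  rw [cW, mul_sum, mul_sum, sum_div]
  refine sum_congr rfl fun S hS => ?_
  have h1 : S.card ≤ Wᶜ.card := card_le_card (mem_powerset.1 hS)
  have h2 : Fintype.card V = W.card + S.card + (Wᶜ.card - S.card) := by
    have := card_add_card_compl W
    omega
  have h3 : 1 - u / (1 + u) = 1 / (1 + u) := by field_simp; ring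
  rw [h2, h3, add_sub_cancel, pow_add, pow_add, div_pow, div_pow, div_pow, one_pow]
  field_simp

lemma sum_p (G : SimpleGraph V) (x u t : ℝ) : ∑ W : Finset V, x ^ W.card * cW G W u t =
    ∑ k ∈ range (Fintype.card V + 1), x ^ k * p G k u t := by
  simp only [p, mul_sum]
  rw [sum_comm]
  refine sum_congr rfl fun W _ => ?_
  rw [sum_eq_single W.card]
  · simp
  · intro k _ hk
    rw [if_neg hk.symm, mul_zero]
  · intro h
    exact absurd (mem_range.2 (Nat.lt_succ_of_le (card_le_univ W))) h

lemma card_eval (G : SimpleGraph V) : aeval ![(1 : ℝ), 0, 0] (B G) = 2 ^ Fintype.card V := by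
  have := evalB G 1 0 0
  rw [this]
  have h : ∀ W : Finset V, ∑ S ∈ Wᶜ.powerset,
      (0 : ℝ) ^ S.card * (1 - 0) ^ (Wᶜ.card - S.card) * (1 + 0) ^ ec G W S = 1 := by
    intro W
    rw [sum_eq_single ∅]
    · simp
    · intro S _ hS
      rw [zero_pow (fun e => hS (card_eq_zero.1 e))]
      simp
    · simp
  simp only [h]
  simp

lemma p_eq {V' : Type} [Fintype V'] [DecidableEq V'] (G : SimpleGraph V) (H : SimpleGraph V')
    (h : B G = B H) (hn : Fintype.card V = Fintype.card V') (k : ℕ) (u t : ℝ) (hu : 0 < u) :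
    p G k u t = p H k u t := by
  have h1 : ∀ x : ℝ, ∑ W : Finset V, x ^ W.card * cW G W u t =
      ∑ W : Finset V', x ^ W.card * cW H W u t := by
    intro x
    have a := evalB2 G x u t hu
    rw [h, evalB2 H x u t hu, hn] at a
    exact ((div_left_inj' (by positivity)).1 a).symm
  have h2 : (∑ W : Finset V, Polynomial.monomial W.card (cW G W u t)) =
      ∑ W : Finset V', Polynomial.monomial W.card (cW H W u t) := by
    apply Polynomial.funext
    intro x
    simpa [Polynomial.eval_finsetSum, mul_comm] using h1 x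
  have h3 := congrArg (fun q => Polynomial.coeff q k) h2
  simpa [Polynomial.coeff_monomial, p] using h3

theorem result {V V' : Type} [Fintype V] [DecidableEq V] [Fintype V'] [DecidableEq V']
    (G : SimpleGraph V) (H : SimpleGraph V') (h : B Gᶜ = B Hᶜ) : B G = B H := by
  have hn : Fintype.card V = Fintype.card V' := by
    have a := card_eval Gᶜ
    rw [h, card_eval] at a
    exact (pow_right_injective₀ (by norm_num) (by norm_num) a).symm
  apply MvPolynomial.map_injective (Int.castRingHom ℝ) Int.cast_injective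
  apply MvPolynomial.funext_set (fun _ => Set.Ioo (0 : ℝ) 1) (fun _ => Set.Ioo_infinite one_pos)
  intro v hv
  have h1 := hv 1 trivial
  have h2 := hv 2 trivial
  have hy : 0 < 1 - v 1 := by linarith [h1.2]
  have hu : 0 < v 1 / (1 - v 1) := div_pos h1.1 hy
  have ht : 0 < v 2 + 1 := by linarith [h2.1]
  have e : v = ![(v 0 / (1 - v 1)) / (1 + v 1 / (1 - v 1)),
      (v 1 / (1 - v 1)) / (1 + v 1 / (1 - v 1)), (v 2 + 1) - 1] := by
    funext i
    fin_cases i
    · simp; field_simp; ring
    · simp; field_simp; ring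
    · simp
  have key : aeval v (B G) = aeval v (B H) := by
    rw [e, evalB2 G _ _ _ hu, evalB2 H _ _ _ hu, sum_p, sum_p, hn]
    congr 1
    refine sum_congr rfl fun k _ => ?_
    rw [p_compl G k _ _ ht.ne', p_compl H k _ _ ht.ne', p_eq Gᶜ Hᶜ h hn k _ _ (by positivity)]
  simpa [eval_map, aeval_def] using key

end Pool.Agent.Results.MP_633bfc_co.Proof
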